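import Mathlib
import Pool.Agent.R390.MZ.Grow2
import Pool.Agent.R390.MZ.GapDefs

set_option autoImplicit false

/-!
# The double shuffle Lie algebra: freeness and the growth rate imply the exact structure

Suppose that `dm` is a free Lie algebra, with `a_w` free generators of weight `w`.  Let `D_p` be the
number of the formal multiple zeta values of weight `p` (the dimension of `H^0_p` modulo the
regularized double shuffle relations).  If the exponential growth rate of `D_p` is at most that of
Zagier's numbers `d_p` (the plastic number `1.3247...`), then `a_w = 1` for the odd `w ≥ 3` and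
`a_w = 0` otherwise, and `D_p = d_p` for all `p`: Q1 holds.
-/

open Pool.Agent.R390.MZ

namespace Pool.Agent.Results.MP_ec2393_nt.FreenessAndGrowth

/-- Let `fdim p` be the dimension of the part of weight `p` of `H^0` modulo the span of the
regularized double shuffle elements of weight `p`. Suppose that `dm` is free on homogeneous
generators, `a_w` of weight `w`; by Racinet's theorem this says that
`(1 - X ^ 2) (1 - ∑ a_w X ^ w) ∑ fdim p X ^ p = 1`. It is known that `a_w ≥ 1` for all odd `w ≥ 3`
(`odd3 w ≤ a w`). Suppose that `fdim p * t ^ p` is bounded in `p` for every `t > 0` with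
`t ^ 2 + t ^ 3 < 1`. Then `a_w = 1` for all odd `w ≥ 3` and `a_w = 0` for all other `w`, and
`fdim p = d_p` for all `p`, where `d_0 = 1`, `d_1 = 0`, `d_2 = 1`, `d_p = d_(p-2) + d_(p-3)`. -/
theorem result (a : ℕ → ℕ) (ha : ∀ w, odd3 w ≤ a w) (ha0 : a 0 = 0)
    (hfree : (1 - PowerSeries.X ^ 2 : PowerSeries ℤ) * (1 - PowerSeries.mk fun n => (a n : ℤ)) *
      PowerSeries.mk (fun n => (fdim n : ℤ)) = 1)
    (hgrowth : ∀ t : ℝ, 0 < t → t ^ 2 + t ^ 3 < 1 →
      ∃ C : ℝ, ∀ p, (fdim p : ℝ) * t ^ p ≤ C) :
    (∀ w, a w = odd3 w) ∧ ∀ p, fdim p = dz p :=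
  grow_main ha ha0 hfree hgrowth

end Pool.Agent.Results.MP_ec2393_nt.FreenessAndGrowth
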