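import Pool.Agent.R241.DL5

/-! MP_ec2393_nt: any number of elements of the double shuffle Lie algebra `dm`, homogeneous of large
weight, all of whose words contain at least `r ≥ 2` letters `x₀`, and linearly independent modulo the
elements with at least `r + 2` letters `x₀` in each word, generate a free Lie algebra. -/

set_option autoImplicit false

namespace Pool.Agent.Results.MP_ec2393_nt.LetterWindowFreeness

open Pool.Agent.H777R4.DM

attribute [local instance 100] LieRing.ofAssociativeRing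

/-- Let `r ≥ 2` and let `W` be a finite set of weights `w` with `|W| (r + 2) ≤ w`.  Let
`ψ₁, …, ψₙ ∈ dm` be homogeneous of weights in `W`, with at least `r` letters `x₀` in each word, such
that no nonzero linear combination has at least `r + 2` letters `x₀` in each word.  Then there is an
injective linear map `φ` on `ℚ⟨X₁, …, Xₙ⟩` with `φ Xᵢ = ψᵢ` carrying the bracket of the free Lie
algebra on `X₁, …, Xₙ` to the Ihara bracket. -/
theorem result (n r : ℕ) (W : Finset ℕ) (hr : 2 ≤ r) (hW : ∀ w ∈ W, W.card * (r + 2) ≤ w)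
    (ψ : Fin n → A) (wt : Fin n → ℕ) (hwt : ∀ i, wt i ∈ W) (hdm : ∀ i, IsDM (ψ i))
    (hψ : ∀ i u, co (ψ i) u ≠ 0 → u.length = wt i ∧ r ≤ u.count 0)
    (hind : ∀ c : Fin n → ℚ, (∀ u, u.count 0 ≤ r + 1 → co (∑ i, c i • ψ i) u = 0) → c = 0) :
    ∃ φ : Al (Fin n) →ₗ[ℚ] A, Function.Injective φ ∧ (∀ i, φ (wd [i]) = ψ i) ∧
      ∀ P ∈ LieN n, ∀ Q ∈ LieN n, φ (P * Q - Q * P) = ihara (φ P) (φ Q) :=
  Pool.Agent.R241.DL.final2 hr hW hwt hdm (fun i u hu => (hψ i u hu).1)
    (fun i u hu => (hψ i u hu).2) hind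

end Pool.Agent.Results.MP_ec2393_nt.LetterWindowFreeness
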