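import Pool.Agent.R241.DT4

/-! MP_ec2393_nt: elements of the double shuffle Lie algebra `dm`, none of whose words ends with more than
`w - s` letters `x₀` (`w` the weight), generate a free Lie algebra under the Ihara bracket if, after
deleting the final letters `x₀` of all words, they are linearly independent modulo words of length
`≥ 2 s`. -/

set_option autoImplicit false

namespace Pool.Agent.Results.MP_ec2393_nt.TrailingWindowFreeness

open Pool.Agent.H777R4.DM

attribute [local instance 100] LieRing.ofAssociativeRing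

/-- Let `s ≥ 2` and let `ψ₁, …, ψₙ ∈ dm` be homogeneous of weights `w₁, …, wₙ ≥ 2 s`, such that no word
of `ψᵢ` ends with more than `wᵢ - s` letters `x₀`.  Suppose that `c = 0` is the only vector with
`∑ cᵢ ⟨ψᵢ, u x₀ ^ (wᵢ - |u|)⟩ = 0` for all words `u` of length `< 2 s`.  Then there is an injective linear
map `φ` on `ℚ⟨X₁, …, Xₙ⟩` with `φ Xᵢ = ψᵢ` carrying the bracket of the free Lie algebra on `X₁, …, Xₙ`
to the Ihara bracket. -/
theorem result (n s : ℕ) (hs : 2 ≤ s) (ψ : Fin n → A) (w : Fin n → ℕ) (hw : ∀ i, 2 * s ≤ w i)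
    (hdm : ∀ i, IsDM (ψ i)) (hhom : ∀ i u, co (ψ i) u ≠ 0 → u.length = w i)
    (htr : ∀ i u k, co (ψ i) (u ++ List.replicate k 0) ≠ 0 → k + s ≤ w i)
    (hind : ∀ c : Fin n → ℚ, (∀ u : List (Fin 2), u.length < 2 * s →
      ∑ i, c i * co (ψ i) (u ++ List.replicate (w i - u.length) 0) = 0) → c = 0) :
    ∃ φ : Al (Fin n) →ₗ[ℚ] A, Function.Injective φ ∧ (∀ i, φ (wd [i]) = ψ i) ∧
      ∀ P ∈ LieN n, ∀ Q ∈ LieN n, φ (P * Q - Q * P) = ihara (φ P) (φ Q) :=
  Pool.Agent.R241.DT.final2 hs hdm hhom hw (fun i v k h => htr i (wordX v) k h) hind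

end Pool.Agent.Results.MP_ec2393_nt.TrailingWindowFreeness
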